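import Pool.Agent.SZG.StmtsW

/-!
# Squad SZG, row TBG
-/

set_option autoImplicit false

namespace Pool.Agent.SZG.H31

open scoped BigOperators
open Pool.Agent.THS

theorem nv_pos {K ι : Type} [Field K] [Finite ι] (v : AbsoluteValue K ℝ) {x : ι → K}
    (hx : x ≠ 0) : 0 < nv v x := by
  obtain ⟨i, hi⟩ := Function.ne_iff.1 hx
  exact lt_of_lt_of_le (v.pos hi) (le_ciSup (f := fun i => v (x i)) (Set.finite_range _).bddAbove i)

theorem nv_mul {K ι : Type} [Field K] (v : AbsoluteValue K ℝ) (a : K) (x y : ι → K)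
    (h : ∀ i, y i = a * x i) : nv v y = v a * nv v x := by
  unfold nv
  rw [Real.mul_iSup_of_nonneg (v.nonneg a)]
  congr 1
  funext i
  rw [h i, map_mul]

theorem core (wxc : WxcStmt) (prg : PrgStmt) {K I : Type} [Field K] [AddCommGroup I]
    (v : AbsoluteValue K ℝ) {g E : ℕ} {L0 : AddSubgroup I} {c : I → K} {e : I → I → K} {s : K}
    {T : I → Ch g → K} {x : I → Ch g × Ch g → K} {W : I → ℝ} {X : I → I → ℝ}
    (hq : QS K I g E L0 c e s T x) (hw : WX v L0 c e W X) (C : ℝ) (hC : 0 < C)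
    (hd : ∀ i, nv v (T i) ^ 4 ≤ C * (nv v (T (2 • i)) * nv v (T 0) ^ 3)) (i : I) :
    nv v (T i) ^ 3 ≤ C * (nv v (T 0) * W i) ^ 3 := by
  obtain ⟨W0, -, -, -, W4, -, -, Wp⟩ := wxc K I v L0 c e W X hw
  have hW2 : ∀ j : I, W (2 • j) = W j ^ 4 := by
    intro j
    have h1 := W4 2 j
    have h2 : (2 : ℤ) • j = 2 • j := by rw [two_zsmul, two_nsmul]
    rw [h2] at h1
    rw [h1]
    norm_cast
  have hper : ∀ i j : I, nv v (T (i + E • j)) / W (i + E • j) = nv v (T i) / W i := by
    intro i j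
    have hm := hq.mem j
    have h1 := nv_mul v (c (E • j) * e (E • j) i) (T i) (T (i + E • j))
      (fun a => hq.per _ hm i a)
    have h2 := Wp _ hm i
    have h3 : v (c (E • j)) ≠ 0 := (v.pos (hq.cne _ hm)).ne'
    have h4 : v (e (E • j) i) ≠ 0 := (v.pos (hq.ene _ hm i)).ne'
    have h5 := (hw.pos i).ne'
    rw [h1, h2, map_mul]
    field_simp
  have hpos : ∀ i, 0 < nv v (T i) / W i := fun i => div_pos (nv_pos v (hq.T0 i)) (hw.pos i)
  have hdb : ∀ i, (nv v (T i) / W i) ^ 4 ≤
      C * (nv v (T (2 • i)) / W (2 • i)) * (nv v (T 0) / W 0) ^ 3 := by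
    intro i
    have h5 := hw.pos i
    rw [W0, div_one, hW2, div_pow]
    have h6 : C * (nv v (T (2 • i)) / W i ^ 4) * nv v (T 0) ^ 3 =
        C * (nv v (T (2 • i)) * nv v (T 0) ^ 3) / W i ^ 4 := by ring
    rw [h6]
    exact div_le_div_of_nonneg_right (hd i) (by positivity)
  have h := prg I E (fun i => nv v (T i) / W i) C hq.hE hC hper hpos hdb i
  simp only [W0, div_one] at h
  have h5 := hw.pos i
  rw [div_pow, div_le_iff₀ (by positivity)] at h
  rw [mul_pow, ← mul_assoc]
  exact h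

theorem tbg (_qsa : QsaStmt) (wxc : WxcStmt) (dbl : DblStmt) (prg : PrgStmt) : TbgStmt := by
  intro K I _ _ v g E L0 c e s T x W X hq hw h2 i
  have hT0 := nv_pos v (hq.T0 0)
  have hTi := nv_pos v (hq.T0 i)
  have hWi := hw.pos i
  constructor
  · intro hv
    have h1 := core wxc prg v hq hw (4 ^ g) (by positivity) (fun j => by
      have h := (dbl K I v g E L0 c e s T x hq j).1 hv
      rw [← mul_assoc]
      exact h) i
    refine (pow_le_pow_iff_left₀ hTi.le (by positivity) (three_ne_zero)).1 (h1.trans ?_)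
    rw [mul_pow (2 ^ g) (nv v (T 0) * W i) 3]
    refine mul_le_mul_of_nonneg_right ?_ (by positivity)
    rw [← pow_mul, mul_comm g 3, pow_mul]
    exact pow_le_pow_left₀ (by norm_num) (by norm_num) g
  · intro hv
    have hv2 : 0 < v 2 := v.pos h2
    have hv1 : v 2 ≤ 1 := by
      have h := hv 1 1
      rw [map_one, max_self] at h
      have e1 : (1 : K) + 1 = 2 := by norm_num
      rwa [e1] at h
    have hC : 0 < (v 2 ^ (2 * g))⁻¹ := by positivity
    have h1 := core wxc prg v hq hw (v 2 ^ (2 * g))⁻¹ hC (fun j => by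
      have h := (dbl K I v g E L0 c e s T x hq j).2 hv
      rw [inv_mul_eq_div, le_div_iff₀ (by positivity), mul_comm]
      exact h) i
    refine (pow_le_pow_iff_left₀ (by positivity) (by positivity) (three_ne_zero)).1 ?_
    rw [inv_mul_eq_div, le_div_iff₀ (by positivity)] at h1
    refine le_trans ?_ h1
    rw [mul_pow, mul_comm]
    refine mul_le_mul_of_nonneg_left ?_ (by positivity)
    rw [← pow_mul]
    exact pow_le_pow_of_le_one hv2.le hv1 (by omega)

end Pool.Agent.SZG.H31
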